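import Pool.Agent.Helper37_BSig.Stmts

/-!
# Existence of the enumeration (module EnumStmt)
-/

namespace Pool.Agent.BSig

open Filter Cardinal

theorem countable_dat : Countable Dat := by
  have h : Function.Injective (fun D : Dat => (D.l, D.m, D.nF, D.n, D.C, D.Sg, D.Fx)) := by
    intro D D' h
    cases D
    cases D'
    simpa using h
  exact h.countable

theorem tupE_congr (φ : (Fin 5 → MM) → Prop) (x y : ℕ → MM) (D : Dat) (i0 : ℕ)
    (hF : ∀ q ∈ D.Fx, q.2 < i0) (hxy : ∀ j < i0, x j = y j) (w : MM) :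
    TupE φ x D i0 w ↔ TupE φ y D i0 w := by
  unfold TupE
  have h1 : (∀ p z, Mem (pr p z) w → (∀ q ∈ D.Fx, p = (q.1 : MM) → z = x q.2) ∧
      ((∀ q ∈ D.Fx, p ≠ (q.1 : MM)) → ∀ j < i0, z ≠ x j)) ↔
      (∀ p z, Mem (pr p z) w → (∀ q ∈ D.Fx, p = (q.1 : MM) → z = y q.2) ∧
      ((∀ q ∈ D.Fx, p ≠ (q.1 : MM)) → ∀ j < i0, z ≠ y j)) := by
    refine forall_congr' fun p => forall_congr' fun z => imp_congr_right fun _ => ?_
    refine and_congr ?_ ?_
    · refine forall_congr' fun q => forall_congr' fun hq => imp_congr_right fun _ => ?_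
      rw [hxy _ (hF q hq)]
    · refine imp_congr_right fun _ => forall_congr' fun j => forall_congr' fun hj => ?_
      rw [hxy j hj]
  rw [h1]

theorem stpE_congr (φ : (Fin 5 → MM) → Prop) (x y : ℕ → MM) (D : Dat) (i0 p : ℕ)
    (hF : ∀ q ∈ D.Fx, q.2 < i0) (hxy : ∀ j < i0, x j = y j) (z : MM) :
    StpE φ x D i0 p z ↔ StpE φ y D i0 p z := by
  unfold StpE
  simp only [tupE_congr φ x y D i0 hF hxy]

theorem stpE_unique (φ : (Fin 5 → MM) → Prop) (x : ℕ → MM) (D : Dat) (i0 p : ℕ) (z z' : MM)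
    (h : StpE φ x D i0 p z) (h' : StpE φ x D i0 p z') : z = z' := by
  obtain ⟨w, h1, h2, h3⟩ := h
  obtain ⟨w', h1', h2', h3'⟩ := h'
  have e : w = w' := by
    rcases lt_trichotomy w w' with h | h | h
    · exact absurd h1 (h2' w h)
    · exact h
    · exact absurd h1' (h2 w' h)
  subst e
  have b1 := (mem_lt h3).le
  have b2 := (mem_lt h3').le
  exact h1.1 (p : MM) ((le_pr_left _ _).trans b1) z ((le_pr_right _ _).trans b1) z'
    ((le_pr_right _ _).trans b2) h3 h3'

/-- the condition at stage `i` for the data `v` and the sequence `y` -/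
def StgC (φ : (Fin 5 → MM) → Prop) (v : Dat × ℕ × ℕ) (i : ℕ) (y : ℕ → MM) : Prop :=
  (v.1.Ok ∧ (∀ q ∈ v.1.Fx, q.2 < v.2.1) ∧ v.2.1 ≤ i) ∧ ∃ z, StpE φ y v.1 v.2.1 v.2.2 z

open Classical in
/-- the label chosen at stage `i` -/
noncomputable def stgV (φ : (Fin 5 → MM) → Prop) (v : Dat × ℕ × ℕ) (i : ℕ) (y : ℕ → MM) : MM :=
  if h : StgC φ v i y then h.2.choose else 0

/-- the sequence of approximations -/
noncomputable def stgG (φ : (Fin 5 → MM) → Prop) (f : ℕ → Dat × ℕ × ℕ) : ℕ → ℕ → MM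
  | 0 => fun _ => 0
  | i + 1 => Function.update (stgG φ f i) i (stgV φ (f i.unpair.1) i (stgG φ f i))

theorem stgG_stable (φ : (Fin 5 → MM) → Prop) (f : ℕ → Dat × ℕ × ℕ) (i j : ℕ) (h : j < i) :
    stgG φ f i j = stgG φ f (j + 1) j := by
  induction i with
  | zero => omega
  | succ i ih =>
    rcases Nat.lt_succ_iff_lt_or_eq.1 h with h1 | h1
    · have e : stgG φ f (i + 1) j = stgG φ f i j := by
        show Function.update (stgG φ f i) i _ j = _
        exact Function.update_of_ne (by omega) _ _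
      rw [e, ih h1]
    · subst h1
      rfl

open Classical in
theorem enumStmt_proof : EnumStmt := by
  intro φ _
  have hc := countable_dat
  have hn : Nonempty (Dat × ℕ × ℕ) := ⟨(⟨0, 0, 0, 0, ∅, ∅, ∅⟩, 0, 0)⟩
  obtain ⟨f, hf⟩ := exists_surjective_nat (Dat × ℕ × ℕ)
  set x : ℕ → MM := fun i => stgG φ f (i + 1) i with hx
  have hxv : ∀ i, x i = stgV φ (f i.unpair.1) i (stgG φ f i) := by
    intro i
    show Function.update (stgG φ f i) i _ i = _
    rw [Function.update_self]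
  have hxy : ∀ i j, j < i → stgG φ f i j = x j := fun i j h => stgG_stable φ f i j h
  have hst : ∀ i, StgC φ (f i.unpair.1) i (stgG φ f i) →
      StpE φ x (f i.unpair.1).1 (f i.unpair.1).2.1 (f i.unpair.1).2.2 (x i) := by
    intro i h
    have h1 : StpE φ (stgG φ f i) (f i.unpair.1).1 (f i.unpair.1).2.1 (f i.unpair.1).2.2 (x i) := by
      rw [hxv, stgV, dif_pos h]
      exact h.2.choose_spec
    rwa [stpE_congr φ (stgG φ f i) x _ _ _ h.1.2.1
      (fun j hj => hxy i j (hj.trans_le h.1.2.2))] at h1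
  refine ⟨x, fun i => if StgC φ (f i.unpair.1) i (stgG φ f i) then
    dcode (f i.unpair.1).1 (f i.unpair.1).2.1 (f i.unpair.1).2.2 else 0, ?_, ?_⟩
  · intro i
    by_cases h : StgC φ (f i.unpair.1) i (stgG φ f i)
    · right
      exact ⟨_, _, _, h.1.1, h.1.2.1, h.1.2.2, if_pos h, hst i h⟩
    · left
      refine ⟨if_neg h, ?_⟩
      rw [hxv, stgV, dif_neg h]
  · intro D i0 p hD hF hp z hz
    obtain ⟨k, hk⟩ := hf (D, i0, p)
    refine ⟨Nat.pair k i0, ?_⟩
    have e : f (Nat.pair k i0).unpair.1 = (D, i0, p) := by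
      rw [Nat.unpair_pair]
      exact hk
    have hle : i0 ≤ Nat.pair k i0 := Nat.right_le_pair k i0
    have h1 : StgC φ (f (Nat.pair k i0).unpair.1) (Nat.pair k i0) (stgG φ f (Nat.pair k i0)) := by
      rw [e]
      refine ⟨⟨hD, hF, hle⟩, z, ?_⟩
      rw [stpE_congr φ (stgG φ f (Nat.pair k i0)) x D i0 p hF
        (fun j hj => hxy _ j (hj.trans_le hle))]
      exact hz
    have h2 := hst _ h1
    rw [e] at h2
    exact stpE_unique φ x D i0 p _ _ h2 hz

end Pool.Agent.BSig
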