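import Pool.Agent.Helper37_BSig.Stmts

/-!
# Killers and `Kil` (module KilStmt)
-/

namespace Pool.Agent.BSig

open Filter Cardinal

theorem der_mono {φ : (Fin 5 → MM) → Prop} {α α' k k' y y' F t : MM} (hα : α ≤ α') (hk : k ≤ k')
    (hy : y' ≤ y) (h : Der φ α k y F t) : Der φ α' k' y' F t := by
  obtain ⟨K, hK, i, hi, P, hP, Q, hQ, w, hw, h1, h2, h3, h4, h5⟩ := h
  refine ⟨K, hK.trans hα, i, hi.trans hα, P, hP.trans hα, Q, hQ.trans hα, w, hw.trans hα, h1, h2,
    h3, ?_, ?_⟩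
  · intro x hx hm
    obtain ⟨z, hz, h⟩ := h4 x hx hm
    refine ⟨z, hz, ?_⟩
    rcases h with h | h
    · exact Or.inl h
    · exact Or.inr ⟨h.1, h.2.trans hk⟩
  · intro x hx hm
    obtain ⟨z, hz, h⟩ := h5 x hx hm
    refine ⟨z, hz, ?_⟩
    rcases h with h | h
    · exact Or.inl h
    · exact Or.inr ⟨h.1, hy.trans h.2⟩

theorem der_inf {φ : (Fin 5 → MM) → Prop} (hφ : IsDelta0 φ) (l : ℕ) (t F : MM) :
    (∀ m : ℕ, Der φ (aa l) l m F t) ↔ ∃ y, Infl y ∧ Der φ (aa l) l y F t := by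
  constructor
  · intro h
    have h1 : Int1 (fun y => Der φ (aa l) l y F t) :=
      Int1.of_delta0 (IsDelta0.der hφ (IsTerm.param _) (IsTerm.param _) (IsTerm.var 0)
        (IsTerm.param _) (IsTerm.param _))
    obtain ⟨y, hy, h2⟩ := h1.overspill h
    exact ⟨y, hy, h2 y le_rfl⟩
  · rintro ⟨y, hy, h⟩ m
    exact der_mono le_rfl le_rfl (hy m).le h

theorem kilStmt_proof (hR : RepBasics) : KilStmt := by
  obtain ⟨-, -, -, -, hC, hK, -⟩ := hR
  intro φ hφ
  refine ⟨?_, ?_, ?_, ?_, ?_⟩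
  · rintro l t S ⟨h1, h2, F, h3, h4, h5⟩
    refine ⟨h1.trans (Nat.le_succ l), h2, F, h3, h4.trans (aa_mono (Nat.le_succ l)), fun m => ?_⟩
    exact der_mono (aa_mono (Nat.le_succ l)) (natCast_le.2 (Nat.le_succ l)) le_rfl (h5 m)
  · intro α k y y' F t hy h
    exact der_mono le_rfl le_rfl hy h
  · intro l t F
    exact der_inf hφ l t F
  · intro l t s
    constructor
    · intro h
      by_contra hc
      push Not at hc
      have h1 : Int1 (fun m => ∃ F, F ≤ aa l ∧ ((Crd F l ∧ ¬ Cfl F F ∧ Der φ (aa l) l m F t) ∧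
          ¬ Cfl F s)) := by
        apply Int1.of_delta0
        refine IsDelta0.ex (IsTerm.param _) ?_
        refine IsDelta0.and ?_ (IsDelta0.cfl (IsTerm.var 0) (IsTerm.param _)).not
        refine (IsDelta0.crd (IsTerm.var 0) (IsTerm.param _)).and ?_
        refine (IsDelta0.cfl (IsTerm.var 0) (IsTerm.var 0)).not.and ?_
        exact IsDelta0.der hφ (IsTerm.param _) (IsTerm.param _) (IsTerm.var 1) (IsTerm.var 0)
          (IsTerm.param _)
      obtain ⟨y, hy, h2⟩ := h1.overspill (by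
        intro m
        have := hc m
        unfold Kil at this
        push Not at this
        obtain ⟨F, hF, h3, h4⟩ := this
        exact ⟨F, hF, h3, h4⟩)
      obtain ⟨F, hF, ⟨h3, h4, h5⟩, h6⟩ := h2 y le_rfl
      obtain ⟨S, hS, hS'⟩ := (hK F l).1 h3
      rw [hC] at h4 h6
      refine h6 ?_
      have h7 : S ∈ Fam φ l t := by
        refine ⟨hS', ?_, F, hS, hF, (der_inf hφ l t F).2 ⟨y, hy, h5⟩⟩
        rw [Rep] at hS
        rw [hS]
        exact h4
      have h8 := h S h7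
      rw [Rep] at hS
      rw [hS] at h8
      exact h8
    · rintro ⟨m, hm⟩ S ⟨h1, h2, F, h3, h4, h5⟩
      have h6 := hm F h4 ⟨(hK F l).2 ⟨S, h3, h1⟩, by
        rw [hC]
        rw [Rep] at h3
        rw [← h3]
        exact h2, h5 m⟩
      rw [hC] at h6
      rw [Rep] at h3
      rw [h3]
      exact h6
  · intro α l m m' t s hm h F hF h1
    exact h F hF ⟨h1.1, h1.2.1, der_mono le_rfl le_rfl hm h1.2.2⟩

end Pool.Agent.BSig
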